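import Mathlib

/-!
# Combinatorics of countable subsets

* `exists_code`: a function on the countable subsets of any set which takes all of at most
  continuum many values on the infinite subsets of every infinite set.
* `exists_jonsson`: an `ω`-Jonsson function for a regular strong limit cardinal.
* `core`: the consequence of the Magidor property used for diagonal Prikry forcing.
-/

set_option autoImplicit false

namespace Pool.Agent.R588

open Cardinal Set

universe u v

section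

theorem exists_rec {I : Type u} {X : Type v} [LinearOrder I] [WellFoundedLT I]
    (R : (i : I) → ((j : I) → j < i → X) → X → Prop)
    (h : ∀ i (f : (j : I) → j < i → X), ∃ x, R i f x) :
    ∃ F : I → X, ∀ i, R i (fun j _ => F j) (F i) := by
  classical
  let G : (i : I) → ((j : I) → j < i → X) → X := fun i f => (h i f).choose
  let F : I → X := (wellFounded_lt (α := I)).fix G
  have hF : ∀ i, F i = G i (fun j _ => F j) := fun i => WellFounded.fix_eq _ G i
  refine ⟨F, fun i => ?_⟩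
  have h2 : F i = (h i (fun j _ => F j)).choose := hF i
  rw [h2]
  exact (h i (fun j _ => F j)).choose_spec

/-- choose different elements of large sets -/
theorem exists_choice {mu : Cardinal.{u}} {T X : Type u} (hT : #T ≤ mu) (B : T → Set X)
    (hB : ∀ t, mu ≤ #(B t)) : ∃ x : T → X, Function.Injective x ∧ ∀ t, x t ∈ B t := by
  classical
  obtain ⟨e⟩ : Nonempty ((#T).ord.ToType ≃ T) := by
    rw [← Cardinal.eq]
    simp
  obtain ⟨x, hx⟩ := exists_rec (I := (#T).ord.ToType) (X := X)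
    (fun i f x => x ∈ B (e i) ∧ ∀ j (hj : j < i), x ≠ f j hj) (by
      intro i f
      by_contra hc
      push Not at hc
      have h1 : B (e i) ⊆ range (fun j : Iio i => f j.1 j.2) := by
        intro x hx
        obtain ⟨j, hj, h2⟩ := hc x hx
        exact ⟨⟨j, hj⟩, h2.symm⟩
      have h2 := (hB (e i)).trans ((mk_le_mk_of_subset h1).trans mk_range_le)
      exact absurd (h2.trans_lt (mk_Iio_toType_ord_lt i)) (not_lt.2 hT))
  refine ⟨fun t => x (e.symm t), ?_, fun t => by simpa using (hx (e.symm t)).1⟩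
  intro t t' h
  rcases lt_trichotomy (e.symm t) (e.symm t') with h1 | h1 | h1
  · exact absurd h.symm ((hx _).2 _ h1)
  · exact e.symm.injective h1
  · exact absurd h ((hx _).2 _ h1)

/-- coding on `ℕ` -/
theorem exists_code_nat (R : Type) [Nonempty R] (hR : #R ≤ 𝔠) :
    ∃ c : Set ℕ → R, ∀ W : Set ℕ, W.Infinite → ∀ r, ∃ w ⊆ W, w.Infinite ∧ c w = r := by
  classical
  have key : ∀ W : Set ℕ, W.Infinite → 𝔠 ≤ #{w : Set ℕ | w ⊆ W ∧ w.Infinite} := by
    intro W hW
    let e : ℕ → ℕ := Nat.nth (· ∈ W)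
    have he : Function.Injective e := (Nat.nth_injective hW)
    have heW : ∀ n, e n ∈ W := fun n => Nat.nth_mem_of_infinite hW n
    let F : Set ℕ → {w : Set ℕ | w ⊆ W ∧ w.Infinite} := fun S =>
      ⟨e '' ((fun n => 2 * n) '' univ ∪ (fun n => 2 * n + 1) '' S), by
        constructor
        · rintro _ ⟨n, _, rfl⟩
          exact heW n
        · apply Infinite.image he.injOn
          apply Infinite.mono subset_union_left
          apply Infinite.image
          · intro a _ b _ h
            simpa using h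
          · exact infinite_univ⟩
    have hF : Function.Injective F := by
      intro S T h
      have h1 : e '' ((fun n => 2 * n) '' univ ∪ (fun n => 2 * n + 1) '' S) =
          e '' ((fun n => 2 * n) '' univ ∪ (fun n => 2 * n + 1) '' T) := congrArg Subtype.val h
      have h2 := he.image_injective h1
      have h3 : ∀ S : Set ℕ, ∀ n, 2 * n + 1 ∈ ((fun n => 2 * n) '' univ ∪ (fun n => 2 * n + 1) '' S) ↔
          n ∈ S := by
        intro S n
        simp only [mem_union, mem_image, mem_univ, true_and]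
        constructor
        · rintro (⟨m, hm⟩ | ⟨m, hm, h⟩)
          · omega
          · have : m = n := by omega
            exact this ▸ hm
        · intro h
          exact Or.inr ⟨n, h, rfl⟩
      ext n
      rw [← h3 S n, ← h3 T n, h2]
    calc 𝔠 = #(Set ℕ) := by simp
      _ ≤ _ := mk_le_of_injective hF
  obtain ⟨x, hx, hx'⟩ := exists_choice (mu := 𝔠) (T := {W : Set ℕ // W.Infinite} × R) (X := Set ℕ)
    (by
      rw [mk_prod, Cardinal.lift_id, Cardinal.lift_id]
      refine mul_le_of_le aleph0_le_continuum ?_ hR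
      exact (mk_subtype_le _).trans (by simp))
    (fun t => {w : Set ℕ | w ⊆ t.1.1 ∧ w.Infinite}) (fun t => key t.1.1 t.1.2)
  refine ⟨Function.extend x (fun t => t.2) (fun _ => Classical.arbitrary R), ?_⟩
  intro W hW r
  refine ⟨x (⟨W, hW⟩, r), (hx' _).1, (hx' _).2, ?_⟩
  rw [hx.extend_apply]

/-- coding on any set -/
theorem exists_code (R : Type) [Nonempty R] (hR : #R ≤ 𝔠) (X : Type u) :
    ∃ c : Set X → R, ∀ W : Set X, W.Infinite → ∀ r, ∃ w ⊆ W, w.Infinite ∧ w.Countable ∧ c w = r := by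
  classical
  obtain ⟨c0, hc0⟩ := exists_code_nat R hR
  -- a maximal almost disjoint family
  let S : Set (Set (Set X)) := {F | (∀ A ∈ F, A.Infinite ∧ A.Countable) ∧
    ∀ A ∈ F, ∀ B ∈ F, A ≠ B → (A ∩ B).Finite}
  obtain ⟨F, hF⟩ := zorn_subset S (by
    intro c hc hch
    refine ⟨⋃₀ c, ⟨?_, ?_⟩, fun s hs => subset_sUnion_of_mem hs⟩
    · rintro A ⟨G, hG, hA⟩
      exact (hc hG).1 A hA
    · rintro A ⟨G, hG, hA⟩ B ⟨H, hH, hB⟩ hAB
      rcases hch.total hG hH with h | h
      · exact (hc hH).2 A (h hA) B hB hAB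
      · exact (hc hG).2 A hA B (h hB) hAB)
  have hFS : F ∈ S := hF.1
  have hmax : ∀ W : Set X, W.Infinite → ∃ A ∈ F, (W ∩ A).Infinite := by
    intro W hW
    by_contra hcon
    push Not at hcon
    obtain ⟨e⟩ : Nonempty (ℕ ↪ W) := ⟨Set.Infinite.natEmbedding W hW⟩
    let W' : Set X := range (fun n => (e n : X))
    have hW' : W'.Infinite := infinite_range_of_injective
      (fun a b h => e.injective (Subtype.ext h))
    have hW'W : W' ⊆ W := by
      rintro _ ⟨n, rfl⟩
      exact (e n).2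
    have hW'F : ∀ A ∈ F, (W' ∩ A).Finite := by
      intro A hA
      have := hcon A hA
      exact this.subset (inter_subset_inter_left _ hW'W)
    have hins : insert W' F ∈ S := by
      refine ⟨?_, ?_⟩
      · rintro A (rfl | hA)
        · exact ⟨hW', countable_range _⟩
        · exact hFS.1 A hA
      · rintro A (rfl | hA) B (rfl | hB) hAB
        · exact absurd rfl hAB
        · exact hW'F B hB
        · rw [inter_comm]
          exact hW'F A hA
        · exact hFS.2 A hA B hB hAB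
    have h1 : W' ∈ F := hF.2 hins (subset_insert _ _) (mem_insert _ _)
    have h2 := hW'F W' h1
    rw [inter_self] at h2
    exact hW' h2
  have hen : ∀ A : F, Nonempty (A.1 ≃ ℕ) := by
    intro A
    have h1 := hFS.1 A.1 A.2
    have := h1.1.to_subtype
    have := h1.2.to_subtype
    exact nonempty_equiv_of_countable
  let en : ∀ A : F, X → ℕ := fun A x => if h : x ∈ A.1 then (hen A).some ⟨x, h⟩ else 0
  have hen' : ∀ A : F, InjOn (en A) A.1 := by
    intro A x hx y hy h
    simp only [en, dif_pos hx, dif_pos hy] at h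
    exact congrArg Subtype.val ((hen A).some.injective h)
  let c : Set X → R := fun w => if h : ∃ A : F, w ⊆ A.1 then
    c0 (en h.choose '' w) else Classical.arbitrary R
  refine ⟨c, fun W hW r => ?_⟩
  obtain ⟨A, hA, hWA⟩ := hmax W hW
  let A' : F := ⟨A, hA⟩
  have h1 : (en A' '' (W ∩ A)).Infinite := hWA.image ((hen' A').mono inter_subset_right)
  obtain ⟨w0, hw0, hw0i, hw0r⟩ := hc0 _ h1 r
  let w : Set X := (W ∩ A) ∩ en A' ⁻¹' w0
  have hw : en A' '' w = w0 := by
    apply subset_antisymm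
    · rintro _ ⟨x, hx, rfl⟩
      exact hx.2
    · intro n hn
      obtain ⟨x, hx, rfl⟩ := hw0 hn
      exact ⟨x, ⟨hx, hn⟩, rfl⟩
  have hwi : w.Infinite := by
    intro hfin
    apply hw0i
    rw [← hw]
    exact hfin.image _
  have hwA : w ⊆ A'.1 := fun x hx => hx.1.2
  refine ⟨w, fun x hx => hx.1.1, hwi, (hFS.1 A hA).2.mono hwA, ?_⟩
  have hex : ∃ A : F, w ⊆ A.1 := ⟨A', hwA⟩
  have hch : hex.choose = A' := by
    by_contra hne
    have h2 : hex.choose.1 ≠ A'.1 := fun h => hne (Subtype.ext h)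
    have h3 := hFS.2 _ hex.choose.2 _ A'.2 h2
    exact hwi (h3.subset (subset_inter hex.choose_spec hwA))
  simp only [c, dif_pos hex]
  rw [hch, hw, hw0r]

end

section Jonsson

variable {K : Type u} [LinearOrder K] [WellFoundedLT K]

/-- a subset all of whose initial segments have size less than `ν` has size at most `ν` -/
theorem mk_le_of_initial {D : Set K} {nu : Cardinal.{u}} (h : ∀ a ∈ D, #(D ∩ Iio a : Set K) < nu) :
    #D ≤ nu := by
  by_contra hcon
  push Not at hcon
  have h1 : nu.ord < Ordinal.type (fun a b : D => a < b) :=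
    (ord_lt_ord.2 hcon).trans_le (ord_le_type _)
  obtain ⟨a, ha⟩ := Ordinal.typein_surj (fun a b : D => a < b) h1
  have h2 := Ordinal.card_typein (r := fun a b : D => a < b) a
  rw [ha, card_ord] at h2
  have h3 := h a.1 a.2
  have h4 : #{y : D // y < a} ≤ #(D ∩ Iio a.1 : Set K) := by
    let f : {y : D // y < a} → (D ∩ Iio a.1 : Set K) := fun y => ⟨y.1.1, y.1.2, y.2⟩
    have hf : Function.Injective f := by
      intro y z hyz
      have h5 : (f y : K) = f z := congrArg Subtype.val hyz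
      exact Subtype.ext (Subtype.ext h5)
    exact mk_le_of_injective hf
  rw [← h2] at h4
  exact absurd h3 (not_lt.2 h4)

/-- there are many sequences in `D` with least upper bound `δ` -/
def Rich (D : Set K) (δ : K) : Prop :=
  ℵ₀ ≤ #(Iio δ) ∧ (2 : Cardinal.{u}) ^ #(Iio δ) ≤ #{y : ℕ → K | (∀ n, y n ∈ D) ∧ IsLUB (range y) δ}

theorem exists_rich (hK : ∀ f : ℕ → K, ∃ b, ∀ n, f n < b)
    (hI : ∀ a : K, #(Iio a) < #K) (hS : ∀ nu < #K, (2 : Cardinal.{u}) ^ nu < #K)
    {D : Set K} (hD : #K ≤ #D) (ξ : K) : ∃ δ, ξ < δ ∧ Rich (D ∩ Iio δ) δ := by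
  classical
  -- one step
  have step : ∀ a : K, ∃ d ∈ D, a < d ∧ (2 : Cardinal.{u}) ^ #(Iio a) ≤ #(D ∩ Iio d : Set K) := by
    intro a
    by_contra hcon
    push Not at hcon
    have h1 : #(D ∩ Ioi a : Set K) ≤ 2 ^ #(Iio a) := by
      apply mk_le_of_initial
      rintro d ⟨hd, had⟩
      exact (mk_le_mk_of_subset (by
        rintro x ⟨⟨hx, _⟩, hxd⟩
        exact ⟨hx, hxd⟩)).trans_lt (hcon d hd had)
    have h2 : D ⊆ (D ∩ Ioi a) ∪ (Iio a ∪ {a}) := by
      intro x hx
      rcases lt_trichotomy a x with h | h | h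
      · exact Or.inl ⟨hx, h⟩
      · exact Or.inr (Or.inr h.symm)
      · exact Or.inr (Or.inl h)
    have hinf : ℵ₀ ≤ #K := by
      by_contra hlt
      push Not at hlt
      rw [lt_aleph0_iff_finite] at hlt
      obtain ⟨b, hb⟩ := hK (fun _ => a)
      have : Nonempty K := ⟨a⟩
      obtain ⟨m, hm⟩ := Finite.exists_max (id : K → K)
      obtain ⟨b, hb⟩ := hK (fun _ => m)
      exact absurd (hb 0) (not_lt.2 (hm b))
    have h3 : #D < #K := by
      calc #D ≤ #((D ∩ Ioi a) ∪ (Iio a ∪ {a}) : Set K) := mk_le_mk_of_subset h2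
        _ ≤ #(D ∩ Ioi a : Set K) + #(Iio a ∪ {a} : Set K) := mk_union_le _ _
        _ ≤ 2 ^ #(Iio a) + (#(Iio a) + 1) := by
            refine add_le_add h1 ((mk_union_le _ _).trans ?_)
            simp
        _ < #K := add_lt_of_lt hinf (hS _ (hI a))
            (add_lt_of_lt hinf (hI a) (one_lt_aleph0.trans_le hinf))
    exact absurd hD (not_le.2 h3)
  choose st hstD hst1 hst2 using step
  let d : ℕ → K := fun n => st^[n] (st ξ)
  have hd1 : ∀ n, d (n + 1) = st (d n) := fun n => Function.iterate_succ_apply' _ _ _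
  have hdD : ∀ n, d n ∈ D := by
    intro n
    cases n with
    | zero => exact hstD ξ
    | succ n => rw [hd1]; exact hstD _
  have hdlt : ∀ n, d n < d (n + 1) := fun n => by rw [hd1]; exact hst1 _
  have hdm : StrictMono d := strictMono_nat_of_lt_succ hdlt
  obtain ⟨b, hb⟩ := hK d
  obtain ⟨δ, hδ, hδm⟩ := (wellFounded_lt (α := K)).has_min (upperBounds (range d))
    ⟨b, by rintro _ ⟨n, rfl⟩; exact (hb n).le⟩
  have hlub : IsLUB (range d) δ := ⟨hδ, fun c hc => not_lt.1 (hδm c hc)⟩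
  have hdδ : ∀ n, d n < δ := fun n => (hdlt n).trans_le (hδ ⟨n + 1, rfl⟩)
  have hξδ : ξ < δ := (hst1 ξ).trans (hdδ 0)
  have hcof : ∀ x < δ, ∃ n, x < d n := by
    intro x hx
    by_contra hcon
    push Not at hcon
    exact absurd hx (not_lt.2 (hlub.2 (by rintro _ ⟨n, rfl⟩; exact hcon n)))
  -- injections
  have hinj : ∀ n, ∃ g : Set (Iio (d n)) → (D ∩ Iio (d (n + 1)) : Set K), Function.Injective g := by
    intro n
    have h1 : #(Set (Iio (d n))) ≤ #(D ∩ Iio (d (n + 1)) : Set K) := by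
      rw [mk_set, hd1]
      exact hst2 _
    obtain ⟨g⟩ := h1
    exact ⟨g, g.injective⟩
  choose g hg using hinj
  let F : Set (Iio δ) → {y : ℕ → K | (∀ n, y n ∈ D ∩ Iio δ) ∧ IsLUB (range y) δ} := fun S =>
    ⟨fun n => if n % 2 = 0 then d (n / 2) else
        (g (n / 2) {x | (⟨x.1, x.2.trans (hdδ _)⟩ : Iio δ) ∈ S} : K), by
      constructor
      · intro n
        dsimp only
        split_ifs with h
        · exact ⟨hdD _, hdδ _⟩
        · exact ⟨(g (n / 2) _).2.1, lt_trans (g (n / 2) _).2.2 (hdδ _)⟩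
      · constructor
        · rintro _ ⟨n, rfl⟩
          dsimp only
          split_ifs with h
          · exact (hdδ _).le
          · exact (lt_trans (g (n / 2) _).2.2 (hdδ _)).le
        · intro c hc
          apply hlub.2
          rintro _ ⟨n, rfl⟩
          have := hc ⟨2 * n, rfl⟩
          simpa using this⟩
  have hF : Function.Injective F := by
    intro S T h
    have h1 := congrArg Subtype.val h
    ext ⟨x, hx⟩
    obtain ⟨n, hn⟩ := hcof x hx
    have h2 := congrFun h1 (2 * n + 1)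
    have h3 : (2 * n + 1) % 2 ≠ 0 := by omega
    have h4 : (2 * n + 1) / 2 = n := by omega
    simp only [F, if_neg h3] at h2
    have h5 := hg ((2 * n + 1) / 2) (Subtype.ext h2)
    have hn' : x < d ((2 * n + 1) / 2) := by rw [h4]; exact hn
    have h6 := Set.ext_iff.1 h5 ⟨x, hn'⟩
    exact h6
  refine ⟨δ, hξδ, ?_, ?_⟩
  · have : Infinite (Iio δ) := Infinite.of_injective (fun n => (⟨d n, hdδ n⟩ : Iio δ))
      (fun a b h => hdm.injective (congrArg Subtype.val h))
    exact aleph0_le_mk _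
  · calc (2 : Cardinal.{u}) ^ #(Iio δ) = #(Set (Iio δ)) := by rw [mk_set]
      _ ≤ _ := mk_le_of_injective hF

/-- an `ω`-Jonsson function on sequences -/
theorem exists_jonsson (hK : ∀ f : ℕ → K, ∃ b, ∀ n, f n < b)
    (hI : ∀ a : K, #(Iio a) < #K) (hS : ∀ nu < #K, (2 : Cardinal.{u}) ^ nu < #K) :
    ∃ J : (ℕ → K) → K, ∀ D : Set K, #K ≤ #D → ∀ ξ, ∃ y : ℕ → K, (∀ n, y n ∈ D) ∧ J y = ξ := by
  classical
  have h1 : ∀ δ : K, ∃ Y : {t : Set (Iio δ) × Iio δ // Rich ((↑) '' t.1 : Set K) δ} → (ℕ → K),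
      Function.Injective Y ∧ ∀ t, Y t ∈ {y : ℕ → K | (∀ n, y n ∈ ((↑) '' t.1.1 : Set K)) ∧
        IsLUB (range y) δ} := by
    intro δ
    by_cases hδ : ℵ₀ ≤ #(Iio δ)
    · apply exists_choice (mu := 2 ^ #(Iio δ))
      · refine (mk_subtype_le _).trans ?_
        rw [mk_prod, Cardinal.lift_id, Cardinal.lift_id, mk_set]
        exact mul_le_of_le (hδ.trans (cantor _).le) le_rfl (cantor _).le
      · intro t
        exact t.2.2
    · have : IsEmpty {t : Set (Iio δ) × Iio δ // Rich ((↑) '' t.1 : Set K) δ} :=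
        ⟨fun t => hδ t.2.1⟩
      exact ⟨fun t => (this.false t).elim, fun t => (this.false t).elim,
        fun t => (this.false t).elim⟩
  choose Y hY hY' using h1
  rcases isEmpty_or_nonempty K with hE | hE
  · exact ⟨fun y => y 0, fun D _ ξ => (hE.false ξ).elim⟩
  let J : (ℕ → K) → K := fun y => if h : ∃ (δ : K) (t : _), y = Y δ t then
    (h.choose_spec.choose.1.2 : K) else Classical.arbitrary K
  refine ⟨J, fun D hD ξ => ?_⟩
  obtain ⟨δ, hξ, hR⟩ := exists_rich hK hI hS hD ξ
  let D' : Set (Iio δ) := {x | x.1 ∈ D}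
  have hD' : ((↑) '' D' : Set K) = D ∩ Iio δ := by
    ext x
    constructor
    · rintro ⟨x, hx, rfl⟩
      exact ⟨hx, x.2⟩
    · rintro ⟨hx, hx'⟩
      exact ⟨⟨x, hx'⟩, hx, rfl⟩
  have hR' : Rich ((↑) '' D' : Set K) δ := by rw [hD']; exact hR
  let t : {t : Set (Iio δ) × Iio δ // Rich ((↑) '' t.1 : Set K) δ} := ⟨(D', ⟨ξ, hξ⟩), hR'⟩
  refine ⟨Y δ t, fun n => ?_, ?_⟩
  · obtain ⟨x, hx, h⟩ := (hY' δ t).1 n
    rw [← h]
    exact hx
  · have hex : ∃ (δ' : K) (t' : _), Y δ t = Y δ' t' := ⟨δ, t, rfl⟩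
    simp only [J, dif_pos hex]
    have key : ∀ (δ' : K) (t' : _), Y δ t = Y δ' t' → (t'.1.2 : K) = ξ := by
      intro δ' t' h
      have h1 : δ = δ' := by
        have ha := (hY' δ t).2
        have hb := (hY' δ' t').2
        rw [← h] at hb
        exact ha.unique hb
      subst h1
      have h2 := hY δ h
      rw [← h2]
    exact key _ _ hex.choose_spec.choose_spec

/-- an `ω`-Jonsson function for large families of subsets -/
theorem exists_jonsson_sets [Nonempty K] (hK : ∀ f : ℕ → K, ∃ b, ∀ n, f n < b)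
    (hI : ∀ a : K, #(Iio a) < #K) (hS : ∀ nu < #K, (2 : Cardinal.{u}) ^ nu < #K) :
    ∃ J : (ℕ → Set K) → K, ∀ Z : Set (Set K), #K ≤ #Z → ∀ ξ,
      ∃ y : ℕ → Set K, (∀ n, y n ∈ Z) ∧ J y = ξ := by
  classical
  obtain ⟨J, hJ⟩ := exists_jonsson hK hI hS
  let Δ : Set K → Set K → K := fun a b => if h : (symmDiff a b).Nonempty then h.choose else
    Classical.arbitrary K
  have hΔ : ∀ a b : Set K, a ≠ b → Δ a b ∈ symmDiff a b := by
    intro a b hab
    have h : (symmDiff a b).Nonempty := by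
      rw [nonempty_iff_ne_empty]
      intro h
      exact hab (symmDiff_eq_bot.1 h)
    simp only [Δ, dif_pos h]
    exact h.choose_spec
  refine ⟨fun y => J (fun k => Δ (y (2 * k)) (y (2 * k + 1))), fun Z hZ ξ => ?_⟩
  let D : Set K := {x | ∃ a ∈ Z, ∃ b ∈ Z, Δ a b = x}
  have hD : #K ≤ #D := by
    by_contra hcon
    push Not at hcon
    have hinj : Function.Injective (fun a : Z => {x : D | (x : K) ∈ a.1}) := by
      intro a b h
      by_contra hne
      have hne' : a.1 ≠ b.1 := fun h => hne (Subtype.ext h)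
      have h1 := hΔ _ _ hne'
      have h2 : Δ a.1 b.1 ∈ D := ⟨a.1, a.2, b.1, b.2, rfl⟩
      have h3 := Set.ext_iff.1 h ⟨_, h2⟩
      simp only [mem_ofPred_eq] at h3
      rw [mem_symmDiff] at h1
      tauto
    have h1 : #Z ≤ 2 ^ #D := by
      rw [← mk_set]
      exact mk_le_of_injective hinj
    exact absurd (hZ.trans h1) (not_le.2 (hS _ hcon))
  obtain ⟨y, hy, hyξ⟩ := hJ D hD ξ
  choose a ha b hb hab using hy
  refine ⟨fun n => if n % 2 = 0 then a (n / 2) else b (n / 2), fun n => ?_, ?_⟩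
  · dsimp only
    split_ifs
    · exact ha _
    · exact hb _
  · have : (fun k => Δ (if (2 * k) % 2 = 0 then a ((2 * k) / 2) else b ((2 * k) / 2))
        (if (2 * k + 1) % 2 = 0 then a ((2 * k + 1) / 2) else b ((2 * k + 1) / 2))) = y := by
      funext k
      have h1 : (2 * k) % 2 = 0 := by omega
      have h2 : (2 * k + 1) % 2 ≠ 0 := by omega
      have h3 : (2 * k) / 2 = k := by omega
      have h4 : (2 * k + 1) / 2 = k := by omega
      rw [if_pos h1, if_neg h2, h3, h4, hab]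
    rw [← hyξ]
    exact congrArg J this

end Jonsson

section Core

/-- `x` is countably infinite and bounded -/
def BC {L : Type u} [LinearOrder L] (x : Set L) : Prop := x.Infinite ∧ x.Countable ∧ ∃ b, ∀ a ∈ x, a < b

/-- the Magidor property of the well-ordered set `L` -/
def Magidor (L : Type u) [LinearOrder L] : Prop :=
  ∀ f : Set L → L, ∃ A : Set L, #A = #L ∧ ∃ γ, ∀ x, x ⊆ A → BC x → f x ≠ γ

theorem core {L : Type u} [LinearOrder L] [WellFoundedLT L] (hL : ℵ₀ < #L) (hM : Magidor L)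
    (bd : ℕ → L) (hbd : ∀ a, ∃ n, a < bd n)
    (K : ℕ → Type u) (J : ∀ i, (ℕ → Set (K i)) → K i)
    (hJ : ∀ i, ∀ Z : Set (Set (K i)), #(K i) ≤ #Z → ∀ ξ, ∃ y : ℕ → Set (K i), (∀ n, y n ∈ Z) ∧
      J i y = ξ)
    (hreg : ∀ i, ∀ S : ℕ → Set (Set (K i)), (∀ n, #(S n) < #(K i)) → #(⋃ n, S n : Set _) < #(K i))
    (ι : ∀ i, K i → L) (φ : ℕ → Set L → L) (B : ℕ → ∀ i, Set L → Set (K i)) :
    ∃ A : Set L, #A = #L ∧ ∃ γ, (∀ l x, x ⊆ A → BC x → φ l x ≠ γ) ∧
      ∀ l i, γ ∈ range (ι i) → #{b | ∃ x, x ⊆ A ∧ BC x ∧ B l i x = b} < #(K i) := by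
  classical
  obtain ⟨c, hc⟩ := exists_code (ℕ × ℕ × ℕ × Set (ℕ × ℕ)) (by
    have h1 : #(Set (ℕ × ℕ)) = 𝔠 := by simp
    simp only [mk_prod, Cardinal.lift_id, h1, mk_nat]
    exact mul_le_of_le aleph0_le_continuum aleph0_le_continuum
      (mul_le_of_le aleph0_le_continuum aleph0_le_continuum
        (mul_le_of_le aleph0_le_continuum aleph0_le_continuum le_rfl))) L
  have hLne : Nonempty L := by
    rw [← mk_ne_zero_iff]
    exact (aleph0_pos.trans hL).ne'
  -- enumerations
  have hen : ∀ u : Set L, ∃ e : ℕ → L, u.Countable → u.Nonempty → range e = u := by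
    intro u
    by_cases h : u.Countable ∧ u.Nonempty
    · obtain ⟨e, he⟩ := h.1.exists_eq_range h.2
      exact ⟨e, fun _ _ => he.symm⟩
    · exact ⟨fun _ => Classical.arbitrary L, fun h1 h2 => absurd ⟨h1, h2⟩ h⟩
  choose e he using hen
  let w : Set L → Set L := fun z => {a ∈ z | (z ∩ Iio a).Finite}
  let F : Set L → L := fun z =>
    if (c (w z)).1 = 0 then φ (c (w z)).2.1 (z \ w z)
    else ι (c (w z)).2.2.1 (J (c (w z)).2.2.1 (fun k => B (c (w z)).2.1 (c (w z)).2.2.1
      {a | ∃ j, (k, j) ∈ (c (w z)).2.2.2 ∧ e (z \ w z) j = a}))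
  obtain ⟨A0, hA0, γ, hγ⟩ := hM F
  let W : Set L := w A0
  let A : Set L := A0 \ W
  have hA0inf : A0.Infinite := by
    rw [← infinite_coe_iff, ← aleph0_le_mk_iff, hA0]
    exact hL.le
  have hWinf : W.Infinite := by
    intro hfin
    have h1 : (A0 \ W).Nonempty := (hA0inf.sdiff hfin).nonempty
    obtain ⟨a, ha, hmin⟩ := (wellFounded_lt (α := L)).has_min (A0 \ W) h1
    apply ha.2
    refine ⟨ha.1, hfin.subset ?_⟩
    rintro x ⟨hx, hxa⟩
    by_contra hxW
    exact hmin x ⟨hx, hxW⟩ hxa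
  have hWc : W.Countable := by
    have hmaps : InjOn (fun a => (A0 ∩ Iio a).ncard) W := by
      intro a ha b hb hab
      by_contra hne
      rcases lt_or_gt_of_ne hne with h | h
      · have h1 : (A0 ∩ Iio a).ncard < (A0 ∩ Iio b).ncard := by
          apply Set.ncard_lt_ncard _ hb.2
          refine ⟨fun x hx => ⟨hx.1, lt_trans hx.2 h⟩, fun hsub => ?_⟩
          exact absurd (hsub ⟨ha.1, h⟩).2 (lt_irrefl a)
        exact absurd hab h1.ne
      · have h1 : (A0 ∩ Iio b).ncard < (A0 ∩ Iio a).ncard := by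
          apply Set.ncard_lt_ncard _ ha.2
          refine ⟨fun x hx => ⟨hx.1, lt_trans hx.2 h⟩, fun hsub => ?_⟩
          exact absurd (hsub ⟨hb.1, h⟩).2 (lt_irrefl b)
        exact absurd hab h1.ne'
    exact countable_of_injective_of_countable_image hmaps (to_countable _)
  have hA : #A = #L := by
    apply le_antisymm ((mk_le_mk_of_subset sdiff_subset).trans hA0.le)
    by_contra hcon
    push Not at hcon
    have h1 : #A0 ≤ #A + #W := by
      calc #A0 ≤ #(A ∪ W : Set L) := mk_le_mk_of_subset (fun x hx => by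
            by_cases h : x ∈ W
            · exact Or.inr h
            · exact Or.inl ⟨hx, h⟩)
        _ ≤ _ := mk_union_le _ _
    rw [hA0] at h1
    exact absurd h1 (not_le.2 (add_lt_of_lt hL.le hcon ((mk_le_aleph0_iff.2 hWc.to_subtype).trans_lt hL)))
  -- elements of `A` are above `W`
  have hWA : ∀ a ∈ A, ∀ b ∈ W, b < a := by
    intro a ha b hb
    by_contra hab
    push Not at hab
    exact ha.2 ⟨ha.1, hb.2.subset (inter_subset_inter_right _ (Iio_subset_Iio hab))⟩
  -- the coding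
  have hcode : ∀ u, u ⊆ A → BC u → ∀ w0, w0 ⊆ W → w0.Infinite → w0.Countable →
      w0 ∪ u ⊆ A0 ∧ BC (w0 ∪ u) ∧ w (w0 ∪ u) = w0 ∧ (w0 ∪ u) \ w (w0 ∪ u) = u := by
    intro u hu hub w0 hw0 hw0i hw0c
    have h1 : w0 ∪ u ⊆ A0 := union_subset (fun x hx => (hw0 hx).1) (fun x hx => (hu hx).1)
    have h2 : w (w0 ∪ u) = w0 := by
      ext a
      constructor
      · rintro ⟨ha | ha, hfin⟩
        · exact ha
        · exfalso
          apply hw0i
          apply hfin.subset
          intro b hb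
          exact ⟨Or.inl hb, hWA a (hu ha) b (hw0 hb)⟩
      · intro ha
        exact ⟨Or.inl ha, (hw0 ha).2.subset (inter_subset_inter_left _ h1)⟩
    refine ⟨h1, ⟨hw0i.mono subset_union_left, hw0c.union hub.2.1, ?_⟩, h2, ?_⟩
    · obtain ⟨b, hb⟩ := hub.2.2
      refine ⟨b, ?_⟩
      rintro a (ha | ha)
      · obtain ⟨x, hx⟩ := hub.1.nonempty
        exact (hWA x (hu hx) a (hw0 ha)).trans (hb x hx)
      · exact hb a ha
    · rw [h2]
      ext x
      constructor
      · rintro ⟨hx | hx, hx'⟩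
        · exact absurd hx hx'
        · exact hx
      · intro hx
        refine ⟨Or.inr hx, fun hx' => ?_⟩
        exact absurd (hWA x (hu hx) x (hw0 hx')) (lt_irrefl _)
  refine ⟨A, hA, γ, ?_, ?_⟩
  · intro l x hx hxb
    obtain ⟨w0, hw0, hw0i, hw0c, hcw⟩ := hc W hWinf (0, l, 0, ∅)
    obtain ⟨h1, h2, h3, h4⟩ := hcode x hx hxb w0 hw0 hw0i hw0c
    have h5 := hγ _ h1 h2
    simp only [F] at h5
    rw [h4, h3, hcw] at h5
    simpa using h5
  · rintro l i ⟨ξ, hξ⟩
    by_contra hcon
    push Not at hcon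
    let S : ℕ → Set (Set (K i)) := fun n => {b | ∃ x, x ⊆ A ∧ BC x ∧ (∀ a ∈ x, a < bd n) ∧ B l i x = b}
    have hS : {b | ∃ x, x ⊆ A ∧ BC x ∧ B l i x = b} ⊆ ⋃ n, S n := by
      rintro b ⟨x, hx, hxb, rfl⟩
      obtain ⟨b', hb'⟩ := hxb.2.2
      obtain ⟨n, hn⟩ := hbd b'
      exact mem_iUnion.2 ⟨n, x, hx, hxb, fun a ha => (hb' a ha).trans hn, rfl⟩
    have h1 : ∃ n, #(K i) ≤ #(S n) := by
      by_contra hcon2
      push Not at hcon2
      exact absurd (hcon.trans (mk_le_mk_of_subset hS)) (not_le.2 (hreg i S hcon2))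
    obtain ⟨n, hn⟩ := h1
    obtain ⟨y, hy, hyξ⟩ := hJ i (S n) hn ξ
    choose x hxA hxb hxn hxy using hy
    let u : Set L := ⋃ k, x k
    have hu : u ⊆ A := iUnion_subset hxA
    have hub : BC u := ⟨(hxb 0).1.mono (subset_iUnion x 0), countable_iUnion fun k => (hxb k).2.1,
      bd n, fun a ha => by
        obtain ⟨k, hk⟩ := mem_iUnion.1 ha
        exact hxn k a hk⟩
    obtain ⟨w0, hw0, hw0i, hw0c, hcw⟩ := hc W hWinf (1, l, i, {p | e u p.2 ∈ x p.1})
    obtain ⟨h1, h2, h3, h4⟩ := hcode u hu hub w0 hw0 hw0i hw0c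
    have h5 := hγ _ h1 h2
    apply h5
    have h6 : ∀ k, {a | ∃ j, (k, j) ∈ {p : ℕ × ℕ | e u p.2 ∈ x p.1} ∧ e u j = a} = x k := by
      intro k
      ext a
      constructor
      · rintro ⟨j, hj, rfl⟩
        exact hj
      · intro ha
        have h7 : a ∈ range (e u) := by
          rw [he u hub.2.1 hub.1.nonempty]
          exact mem_iUnion.2 ⟨k, ha⟩
        obtain ⟨j, rfl⟩ := h7
        exact ⟨j, ha, rfl⟩
    have h7 : (fun k => B l i {a | ∃ j, (k, j) ∈ {p : ℕ × ℕ | e u p.2 ∈ x p.1} ∧ e u j = a}) = y := by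
      funext k
      rw [h6 k, hxy k]
    have h8 : ¬ ((1 : ℕ) = 0) := one_ne_zero
    simp only [F]
    rw [h4, h3, hcw]
    simp only [if_neg h8]
    rw [h7, hyξ, hξ]

end Core

end Pool.Agent.R588
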