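import Pool.Agent.Helper669.Forcing

/-!
# Magidor cardinals and diagonal Prikry forcing: definitions
-/

set_option autoImplicit false

namespace Pool.Agent.R588.M

open Cardinal Set Pool.Agent.Helper669.Forcing

/-- `U` is a normal ultrafilter on the uncountable cardinal `δ` (so `δ` is measurable): it
contains no singleton, it is `δ`-complete, and each function which is regressive on a set in `U`
is constant on a set in `U`. -/
def IsNormalMeasure (δ : Cardinal.{0}) (U : Ultrafilter δ.ord.ToType) : Prop :=
  ℵ₀ < δ ∧ (∀ i, {i} ∉ U) ∧
    (∀ (J : Type) (A : J → Set δ.ord.ToType), #J < δ → (∀ j, A j ∈ U) → (⋂ j, A j) ∈ U) ∧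
    ∀ f : δ.ord.ToType → δ.ord.ToType, (∀ᶠ i in (U : Filter δ.ord.ToType), f i < i) →
      ∃ k, ∀ᶠ i in (U : Filter δ.ord.ToType), f i = k

/-- `x` is a countably infinite subset of the ordered set `L` which is bounded in `L`. -/
def CtblBdd {L : Type} [LinearOrder L] (x : Set L) : Prop :=
  x.Infinite ∧ x.Countable ∧ ∃ b, ∀ a ∈ x, a < b

/-- `lam` is a Magidor cardinal: for every function `f` from the countably infinite bounded subsets
of `lam` to `lam` there is a set `A ⊆ lam` of cardinality `lam` such that `f` omits some value `γ`
on the countably infinite bounded subsets of `A`. -/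
def IsMagidor (lam : Cardinal.{0}) : Prop :=
  ∀ f : {x : Set lam.ord.ToType // CtblBdd x} → lam.ord.ToType,
    ∃ A : Set lam.ord.ToType, #A = lam ∧
      ∃ γ, ∀ x : {x : Set lam.ord.ToType // CtblBdd x}, x.1 ⊆ A → f x ≠ γ

/-- The conditions `⟨α₀, …, αₙ₋₁, Aₙ, Aₙ₊₁, …⟩` of diagonal Prikry forcing for the ultrafilters
`U m` on `κ m`: `n = len`, `αᵢ < κᵢ` for `i < n` and `Aₘ ∈ Uₘ` for `m ≥ n`. -/
structure Cond (κ : ℕ → Cardinal.{0}) (U : ∀ n, Ultrafilter (κ n).ord.ToType) : Type where
  len : ℕ
  stem : ∀ i, i < len → (κ i).ord.ToType
  A : ∀ m, len ≤ m → Set (κ m).ord.ToType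
  mem : ∀ m h, A m h ∈ U m

/-- `q` extends `p` (`q ≤ p`) if `q` is at least as long as `p`, the two stems agree below the
length of `p`, the new elements of the stem of `q` are in the sets of `p`, and the sets of `q` are
contained in the sets of `p`. -/
instance (κ : ℕ → Cardinal.{0}) (U : ∀ n, Ultrafilter (κ n).ord.ToType) : Preorder (Cond κ U) where
  le q p := ∃ h : p.len ≤ q.len, (∀ i (hi : i < p.len), q.stem i (hi.trans_le h) = p.stem i hi) ∧
    (∀ i (h1 : p.len ≤ i) (h2 : i < q.len), q.stem i h2 ∈ p.A i h1) ∧
    ∀ m (hm : q.len ≤ m), q.A m hm ⊆ p.A m (h.trans hm)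
  le_refl p := ⟨le_rfl, fun _ _ => rfl, fun i h1 h2 => absurd h2 (not_lt.2 h1),
    fun _ _ => Subset.rfl⟩
  le_trans r q p := by
    rintro ⟨h1, h2, h3, h4⟩ ⟨k1, k2, k3, k4⟩
    refine ⟨k1.trans h1, fun i hi => ?_, fun i hi hi' => ?_, fun m hm => ?_⟩
    · rw [h2 i (hi.trans_le k1), k2 i hi]
    · by_cases h : i < q.len
      · rw [h2 i h]
        exact k3 i hi h
      · exact k4 i (not_lt.1 h) (h3 i (not_lt.1 h) hi')
    · exact (h4 m hm).trans (k4 m (h1.trans hm))

section Names

variable {P : Type} [Preorder P]

/-- The named subset `E` of `X` is contained in the named subset `A`. -/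
def SubN {X : Type} (E A : X → Set P) : Set P :=
  fall fun a => fimp (meets (E a)) (meets (A a))

/-- The named subset `E` of `X` is countably infinite: some function from `ℕ` to `X` is a
bijection between `ℕ` and `E`. -/
def CtblN {X : Type} (E : X → Set P) : Set P :=
  fex fun R : ℕ → X → Set P => fand (IsFun R) (fand (IsInj R)
    (fand (fall fun n => fall fun a => fimp (meets (R n a)) (meets (E a)))
      (fall fun a => fimp (meets (E a)) (fex fun n => meets (R n a)))))

/-- The named subset `E` of the ordered set `L` is bounded in `L`. -/
def BddN {L : Type} [LinearOrder L] (E : L → Set P) : Set P :=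
  fex fun b : L => fall fun a => fimp (meets (E a)) (fground (a < b))

variable (P)

/-- The well-ordered set `L` is a cardinal in the extension: no function from a proper initial
segment of `L` to `L` is onto. -/
def IsCardinalN (L : Type) [LinearOrder L] : Set P :=
  fall fun b : L => fnot (fex fun R : {a : L // a < b} → L → Set P => fand (IsFun R) (IsOnto R))

/-- The Magidor property of the well-ordered set `L` in the extension. A function `f` on the
countably infinite bounded subsets of `L` is given by a set `Y` of the ground model, a named family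
`E y`, `y ∈ Y`, of subsets of `L` and a named function `F` from `Y` to `L` such that `E y = E y'`
implies `F y = F y'`; so `f (E y) = F y`. (Every set of the extension is the range of a
function defined on a set of the ground model, so every `f` is of this form.) The sentence says
that for each such `f` there are a subset `A` of `L` of the same cardinality as `L` and an element
`γ` of `L` such that `f` does not take the value `γ` on the countably infinite bounded subsets
of `A`. -/
def MagidorN (L : Type) [LinearOrder L] : Set P :=
  fall fun Y : Type => fall fun E : Y → L → Set P => fall fun F : Y → L → Set P =>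
    fimp
      (fand (IsFun F) (fall fun y => fall fun y' =>
        fimp (fand (SubN (E y) (E y')) (SubN (E y') (E y)))
          (fall fun c => fimp (meets (F y c)) (meets (F y' c)))))
      (fex fun A : L → Set P => fand (FullSize fun a => meets (A a))
        (fex fun γ : L => fall fun y : Y =>
          fimp (fand (SubN (E y) A) (fand (CtblN (E y)) (BddN (E y)))) (fnot (meets (F y γ)))))

end Names

end Pool.Agent.R588.M
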