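import Pool.Agent.R588.MPrikry
import Pool.Agent.R588.Comb

/-!
# Diagonal Prikry forcing preserves Magidor cardinals
-/

set_option autoImplicit false

namespace Pool.Agent.R588.M

open Cardinal Set Pool.Agent.Helper669.Forcing

variable {κ : ℕ → Cardinal.{0}} {U : ∀ n, Ultrafilter (κ n).ord.ToType}

section General

variable {P : Type} [Preorder P]

theorem fnot_fnot_meets {N : Set P} {p : P} (h : p ∈ fnot (fnot (meets N))) : p ∈ meets N := by
  intro q hq
  obtain ⟨r, hr, hrN⟩ := fnot_fnot.1 h q hq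
  obtain ⟨r', hr', s, hs, hle⟩ := hrN r le_rfl
  exact ⟨r', hr'.trans hr, s, hs, hle⟩

theorem meets_const {c : Prop} {p : P} (h : p ∈ meets {_p : P | c}) : c := by
  obtain ⟨_, _, _, hs, _⟩ := h p le_rfl
  exact hs

theorem fnot_fnot_fex {ι : Type} {φ : ι → Set P} {p : P} (h : p ∈ fnot (fnot (fex φ))) :
    p ∈ fex φ := by
  apply mem_fex.2
  intro q hq
  obtain ⟨r, hr, hr'⟩ := fnot_fnot.1 h q hq
  obtain ⟨s, hs, i, hi⟩ := mem_fex.1 hr' r le_rfl
  exact ⟨s, hs.trans hr, i, hi⟩

/-- use an implication at a condition below -/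
theorem fimp_meets {D : Set P} {N : Set P} {p q : P} (h : p ∈ fimp D (meets N)) (hq : q ≤ p)
    (hD : Down D) (hqD : q ∈ D) : q ∈ meets N := by
  apply fnot_fnot_meets
  apply fnot_fnot.2
  intro r hr
  exact mem_fimp.1 h r (hr.trans hq) (hD _ hqD _ hr)

variable {L : Type}

/-- the named set `e` is the ground model set `x` -/
def EqV (e : L → Set P) (x : Set L) : Set P :=
  fall fun a => fand (fimp (meets (e a)) (fground (a ∈ x))) (fimp (fground (a ∈ x)) (meets (e a)))

theorem mem_EqV {e : L → Set P} {x : Set L} {p : P} :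
    p ∈ EqV e x ↔ (∀ a, ∀ q ≤ p, q ∈ meets (e a) → a ∈ x) ∧ ∀ a ∈ x, p ∈ meets (e a) := by
  constructor
  · intro h
    refine ⟨fun a q hq hqe => ?_, fun a ha => ?_⟩
    · obtain ⟨r, _, hr⟩ := mem_fimp.1 (h a).1 q hq hqe
      exact hr
    · exact fimp_meets (h a).2 le_rfl (down_fground _) ha
  · rintro ⟨h1, h2⟩ a
    refine ⟨mem_fimp.2 fun q hq hqe => ⟨q, le_rfl, h1 a q hq hqe⟩,
      mem_fimp.2 fun q hq ha => ⟨q, le_rfl, down_meets _ _ (h2 a ha) _ hq⟩⟩

theorem down_EqV (e : L → Set P) (x : Set L) : Down (EqV e x) :=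
  down_fall fun _ => down_fand (down_fimp _ _) (down_fimp _ _)

theorem EqV_sub {e e' : L → Set P} {x : Set L} {p : P} (h : p ∈ EqV e x) (h' : p ∈ EqV e' x) :
    p ∈ SubN e e' := by
  intro a
  apply mem_fimp.2
  intro q hq hqe
  exact ⟨q, le_rfl, down_meets _ _ ((mem_EqV.1 h').2 a ((mem_EqV.1 h).1 a q hq hqe)) _ hq⟩

/-- some member of the family is `x`, and its value is `v` -/
def Val {Y : Type} (E F : Y → L → Set P) (x : Set L) (v : L) : Set P :=
  fex fun y : Y => fand (EqV (E y) x) (meets (F y v))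

theorem down_Val {Y : Type} (E F : Y → L → Set P) (x : Set L) (v : L) : Down (Val E F x v) :=
  down_fex _

/-- the sentence on `F` in the definition of the Magidor property -/
def Resp {Y : Type} (E F : Y → L → Set P) : Set P :=
  fand (IsFun F) (fall fun y => fall fun y' =>
    fimp (fand (SubN (E y) (E y')) (SubN (E y') (E y)))
      (fall fun c => fimp (meets (F y c)) (meets (F y' c))))

theorem down_Resp {Y : Type} (E F : Y → L → Set P) : Down (Resp E F) :=
  down_fand (down_IsFun _) (down_fall fun _ => down_fall fun _ => down_fimp _ _)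

theorem Val_unique {Y : Type} {E F : Y → L → Set P} {x : Set L} {v v' : L} {p : P}
    (h : p ∈ Resp E F) (h1 : p ∈ Val E F x v) (h2 : p ∈ Val E F x v') : v = v' := by
  obtain ⟨q, hq, y, hqy⟩ := mem_fex.1 h1 p le_rfl
  obtain ⟨r, hr, y', hry⟩ := mem_fex.1 h2 q hq
  have h3 : r ∈ EqV (E y) x := down_EqV _ _ _ hqy.1 _ hr
  have h4 := down_Resp _ _ _ h _ (hr.trans hq)
  obtain ⟨r', hr', hr''⟩ := mem_fimp.1 (h4.2 y y') r le_rfl ⟨EqV_sub h3 hry.1, EqV_sub hry.1 h3⟩
  have h5 : r' ∈ meets (F y' v) := fimp_meets (hr'' v) le_rfl (down_meets _)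
    (down_meets _ _ hqy.2 _ (hr'.trans hr))
  exact IsFun.unique (down_IsFun _ _ h4.1 _ hr') h5 (down_meets _ _ hry.2 _ hr')

end General

section Ground

/-- an order embedding of `κ` onto a proper initial segment of `lam` -/
theorem exists_seg {k lam : Cardinal.{0}} (h : k < lam) :
    ∃ (t : lam.ord.ToType) (ι : k.ord.ToType → lam.ord.ToType), Function.Injective ι ∧
      range ι = Iio t := by
  let f := Ordinal.principalSegToType (ord_lt_ord.2 h)
  refine ⟨f.top, f, f.injective, ?_⟩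
  ext x
  exact f.mem_range_iff_rel

theorem mk_seg {k lam : Cardinal.{0}} {t : lam.ord.ToType} {ι : k.ord.ToType → lam.ord.ToType}
    (h1 : Function.Injective ι) (h2 : range ι = Iio t) : #(Iio t) = k := by
  rw [← h2, mk_range_eq _ h1, mk_ord_toType]

end Ground

/-- the data on `lam` -/
structure Lim (κ : ℕ → Cardinal.{0}) (lam : Cardinal.{0}) (t : ℕ → lam.ord.ToType)
    (ι : ∀ n, (κ n).ord.ToType → lam.ord.ToType) : Prop where
  inj : ∀ n, Function.Injective (ι n)
  ran : ∀ n, range (ι n) = Iio (t n)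
  cof : ∀ a, ∃ n, a < t n

variable {lam : Cardinal.{0}} {t : ℕ → lam.ord.ToType}
  {ι : ∀ n, (κ n).ord.ToType → lam.ord.ToType}

theorem Lim.card (hL : Lim κ lam t ι) (n : ℕ) : #(Iio (t n)) = κ n := mk_seg (hL.inj n) (hL.ran n)

theorem Lim.mono (hL : Lim κ lam t ι) (h : Good κ U) : Monotone t := by
  intro m n hmn
  by_contra hlt
  push Not at hlt
  rcases hmn.eq_or_lt with rfl | hmn
  · exact lt_irrefl _ hlt
  have h1 : #(Iio (t n)) ≤ #(Iio (t m)) := mk_le_mk_of_subset (Iio_subset_Iio hlt.le)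
  rw [hL.card, hL.card] at h1
  exact absurd (h.mono hmn) (not_lt.2 h1)

/-- `lam` remains a cardinal -/
theorem forces_cardinal (h : Good κ U) (hL : Lim κ lam t ι) (p : Cond κ U) :
    p ∈ IsCardinalN (Cond κ U) lam.ord.ToType := by
  intro b q hq hqR
  obtain ⟨r, hr, R, hrF, hrO⟩ := mem_fex.1 hqR q le_rfl
  obtain ⟨m, hm⟩ := hL.cof b
  obtain ⟨r1, hr1, hr1l⟩ := exists_longer h r (m + 2)
  have hJ : #({a // a < b} × Iio (t (m + 1))) < κ r1.len := by
    rw [mk_prod, Cardinal.lift_id, Cardinal.lift_id, hL.card]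
    apply mul_lt_of_lt (h.unc _).le
    · have h1 : #{a // a < b} ≤ #(Iio (t m)) := mk_le_mk_of_subset (Iio_subset_Iio hm.le)
      rw [hL.card] at h1
      exact h1.trans_lt (h.mono (by omega))
    · exact h.mono (by omega)
  obtain ⟨B, hB, hBs, hdec⟩ := decide_all h (D := fun j : {a // a < b} × Iio (t (m + 1)) =>
    meets (R j.1 j.2.1)) (fun j => down_meets _) r1.len hJ r1.stem (tot r1) (tot_mem r1)
  let r2 := mkC U r1.len r1.stem B hB
  have hr2 : r2 ≤ r1 := by
    conv_rhs => rw [eq_mkC r1]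
    exact mkC_le h fun m _ => hBs m
  have hr2F : r2 ∈ IsFun R := down_IsFun _ _ hrF _ (hr2.trans hr1)
  have hr2O : r2 ∈ IsOnto R := down_IsOnto _ _ hrO _ (hr2.trans hr1)
  have h1 : ∀ v : Iio (t (m + 1)), ∃ a : {a // a < b}, r2 ∈ meets (R a v.1) := by
    intro v
    obtain ⟨r3, hr3, a, ha⟩ := mem_fex.1 (hr2O v.1) r2 le_rfl
    refine ⟨a, ?_⟩
    rcases hdec (a, v) with h2 | h2
    · exact fnot_fnot_meets h2
    · exact absurd ha (h2 r3 hr3)
  choose a ha using h1
  have hainj : Function.Injective a := by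
    intro v w hvw
    have h2 := ha w
    rw [← hvw] at h2
    exact Subtype.ext (IsFun.unique hr2F (ha v) h2)
  have h2 := mk_le_of_injective hainj
  rw [hL.card] at h2
  have h3 : #{a // a < b} ≤ #(Iio (t m)) := mk_le_mk_of_subset (Iio_subset_Iio hm.le)
  rw [hL.card] at h3
  exact absurd (h2.trans h3) (not_le.2 (h.mono (Nat.lt_succ_self m)))

/-- no new countable bounded sets: below any condition which forces `e` to be a countably
infinite bounded set there is one which makes `e` equal to a ground model set -/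
theorem exists_ground (h : Good κ U) (hL : Lim κ lam t ι) {e : lam.ord.ToType → Set (Cond κ U)}
    {q : Cond κ U} (h1 : q ∈ CtblN e) (h2 : q ∈ BddN e) :
    ∃ r ≤ q, ∃ x : Set lam.ord.ToType, CtblBdd x ∧ r ∈ EqV e x := by
  obtain ⟨q1, hq1, b, hb⟩ := mem_fex.1 h2 q le_rfl
  obtain ⟨q2, hq2, R, hR1, hR2, hR3, hR4⟩ := mem_fex.1 h1 q1 hq1
  obtain ⟨m, hm⟩ := hL.cof b
  obtain ⟨q3, hq3, hq3l⟩ := exists_longer h q2 (m + 1)
  have hJ : #(Iio (t m) ⊕ ℕ × Iio (t m)) < κ q3.len := by
    rw [mk_sum, Cardinal.lift_id, Cardinal.lift_id, mk_prod, Cardinal.lift_id, Cardinal.lift_id,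
      hL.card, mk_nat]
    have h3 : κ m < κ q3.len := h.mono (by omega)
    exact add_lt_of_lt (h.unc _).le h3 (mul_lt_of_lt (h.unc _).le (h.unc _) h3)
  obtain ⟨B, hB, hBs, hdec⟩ := decide_all h (D := fun j : Iio (t m) ⊕ ℕ × Iio (t m) =>
    Sum.elim (fun a => meets (e a.1)) (fun k => meets (R k.1 k.2.1)) j)
    (fun j => by rcases j with a | k <;> exact down_meets _) q3.len hJ q3.stem (tot q3) (tot_mem q3)
  let r := mkC U q3.len q3.stem B hB
  have hrq3 : r ≤ q3 := by
    conv_rhs => rw [eq_mkC q3]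
    exact mkC_le h fun m _ => hBs m
  have hrq2 : r ≤ q2 := hrq3.trans hq3
  have hrF : r ∈ IsFun R := down_IsFun _ _ hR1 _ hrq2
  have hrI : r ∈ IsInj R := down_IsInj _ _ hR2 _ hrq2
  have hlt : ∀ a, ∀ s ≤ r, s ∈ meets (e a) → a < t m := by
    intro a s hs hse
    obtain ⟨s', _, hs'⟩ := mem_fimp.1 (hb a) s (hs.trans (hrq2.trans hq2)) hse
    exact lt_trans hs' hm
  have hde : ∀ a, ∀ s ≤ r, s ∈ meets (e a) → r ∈ meets (e a) := by
    intro a s hs hse
    rcases hdec (Sum.inl ⟨a, hlt a s hs hse⟩) with h3 | h3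
    · exact fnot_fnot_meets h3
    · exact absurd hse (h3 s hs)
  have hRe : ∀ k a, ∀ s ≤ r, s ∈ meets (R k a) → s ∈ meets (e a) := fun k a s hs hsR =>
    fimp_meets (hR3 k a) (hs.trans hrq2) (down_meets _) hsR
  have hdR : ∀ k a, ∀ s ≤ r, s ∈ meets (R k a) → r ∈ meets (R k a) := by
    intro k a s hs hsR
    rcases hdec (Sum.inr (k, ⟨a, hlt a s hs (hRe k a s hs hsR)⟩)) with h3 | h3
    · exact fnot_fnot_meets h3
    · exact absurd hsR (h3 s hs)
  have hex : ∀ k, ∃ a, r ∈ meets (R k a) := by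
    intro k
    obtain ⟨s, hs, a, ha⟩ := IsFun.total hrF k
    exact ⟨a, hdR k a s hs ha⟩
  choose f hf using hex
  have hfinj : Function.Injective f := by
    intro k l hkl
    have h3 := hf l
    rw [← hkl] at h3
    exact IsInj.eq hrI (hf k) h3
  let x : Set lam.ord.ToType := {a | r ∈ meets (e a)}
  have hx : x = range f := by
    ext a
    constructor
    · intro ha
      obtain ⟨s, hs, hs'⟩ := mem_fimp.1 (down_fimp _ _ _ (hR4 a) _ hrq2) r le_rfl ha
      obtain ⟨s', hs's, k, hk⟩ := mem_fex.1 hs' s le_rfl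
      have h3 := hdR k a s' (hs's.trans hs) hk
      exact ⟨k, IsFun.unique hrF (hf k) h3⟩
    · rintro ⟨k, rfl⟩
      exact hRe k _ r le_rfl (hf k)
  refine ⟨r, hrq2.trans (hq2.trans hq1), x, ⟨?_, ?_, t m, fun a ha => hlt a r le_rfl ha⟩, ?_⟩
  · rw [hx]
    exact infinite_range_of_injective hfinj
  · rw [hx]
    exact countable_range f
  · exact mem_EqV.2 ⟨fun a s hs hse => hde a s hs hse, fun a ha => ha⟩

/-- **Main theorem.** -/
theorem forces_magidor (h : Good κ U) (hS : ∀ n, ∀ nu < κ n, (2 : Cardinal.{0}) ^ nu < κ n)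
    (hreg : ∀ n, (κ n).IsRegular) (hL : Lim κ lam t ι) (hlam : ∀ n, κ n < lam)
    (hM : IsMagidor lam) (p : Cond κ U) : p ∈ MagidorN (Cond κ U) lam.ord.ToType := by
  classical
  intro Y E F
  apply mem_fimp.2
  intro q hq hqR
  clear hq p
  -- `q` is the condition which we extend
  have hR : q ∈ Resp E F := hqR
  have hne := h.nonempty
  have hlne : Nonempty lam.ord.ToType := ⟨t 0⟩
  have hMag : Magidor lam.ord.ToType := by
    intro f
    obtain ⟨A, hA, γ, hγ⟩ := hM (fun x => f x.1)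
    exact ⟨A, by rw [hA, mk_ord_toType], γ, fun x hx hxb => hγ ⟨x, hxb⟩ hx⟩
  -- a fixed infinite extension of the stem
  have htne : ∀ m, (tot q m).Nonempty := fun m => Ultrafilter.nonempty_of_mem (tot_mem q m)
  obtain ⟨g0, hg0⟩ := exists_repr h q
  let g : ∀ i, (κ i).ord.ToType := fun i => if i < q.len then g0 i else (htne i).choose
  have hgq : ∀ l, q.len ≤ l → ∀ B : ∀ m, Set (κ m).ord.ToType, ∀ hB : ∀ m, B m ∈ U m,
      (∀ m, l ≤ m → B m ⊆ tot q m) → mkC U l (res l g) B hB ≤ q := by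
    intro l hl B hB hs
    conv_rhs => rw [hg0]
    rw [le_mkC_iff]
    refine ⟨hl, fun i hi => by simp [g, hi], fun i hi _ => ?_, hs⟩
    simp only [g, if_neg (not_lt.2 hi)]
    exact (htne i).choose_spec
  let N : ℕ → ℕ := fun l => q.len + 1 + l
  -- deciding the value at `x`
  have hdec : ∀ l (x : Set lam.ord.ToType), ∃ B, ∃ hB : ∀ m, B m ∈ U m, (∀ m, B m ⊆ tot q m) ∧
      ∀ v : Iio (t (q.len + l)), mkC U (N l) (res (N l) g) B hB ∈ Val E F x v.1 ∨
        mkC U (N l) (res (N l) g) B hB ∈ fnot (Val E F x v.1) := by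
    intro l x
    have hJ : #(Iio (t (q.len + l))) < κ (N l) := by
      rw [hL.card]
      exact h.mono (by simp only [N]; omega)
    obtain ⟨B, hB, hBs, hd⟩ := decide_all h (D := fun v : Iio (t (q.len + l)) => Val E F x v.1)
      (fun v => down_Val _ _ _ _) (N l) hJ (res (N l) g) (tot q) (tot_mem q)
    refine ⟨B, hB, hBs, fun v => ?_⟩
    rcases hd v with h1 | h1
    · exact Or.inl (fnot_fnot_fex h1)
    · exact Or.inr h1
  choose B hB hBq hBd using hdec
  -- the decided value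
  let φ : ℕ → Set lam.ord.ToType → lam.ord.ToType := fun l x =>
    if hx : ∃ v : Iio (t (q.len + l)), mkC U (N l) (res (N l) g) (B l x) (hB l x) ∈ Val E F x v.1
    then (hx.choose : lam.ord.ToType) else Classical.arbitrary _
  -- Jonsson functions
  have hJex : ∀ i, ∃ J : (ℕ → Set (κ i).ord.ToType) → (κ i).ord.ToType,
      ∀ Z : Set (Set (κ i).ord.ToType), #(κ i).ord.ToType ≤ #Z → ∀ ξ,
        ∃ y : ℕ → Set (κ i).ord.ToType, (∀ n, y n ∈ Z) ∧ J y = ξ := by
    intro i
    apply exists_jonsson_sets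
    · intro f
      by_contra hcon
      push Not at hcon
      have h1 : (⋃ n, Iic (f n)) = Set.univ := by
        apply eq_univ_of_forall
        intro b
        obtain ⟨n, hn⟩ := hcon b
        exact mem_iUnion.2 ⟨n, hn⟩
      have h2 : #(⋃ n, Iic (f n) : Set (κ i).ord.ToType) < κ i := by
        apply (mk_iUnion_le_sum_mk).trans_lt
        apply sum_lt_of_isRegular (hreg i)
        · rw [mk_nat]
          exact h.unc i
        · intro n
          have h3 : #(Iic (f n)) ≤ #(Iio (f n)) + 1 := by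
            rw [← Iio_insert]
            exact mk_insert_le
          exact h3.trans_lt (add_lt_of_lt (h.unc i).le (mk_Iio_toType_ord_lt _)
            (one_lt_aleph0.trans (h.unc i)))
      rw [h1, mk_univ, mk_ord_toType] at h2
      exact lt_irrefl _ h2
    · intro a
      rw [mk_ord_toType]
      exact mk_Iio_toType_ord_lt a
    · intro nu hnu
      rw [mk_ord_toType] at hnu ⊢
      exact hS i nu hnu
  choose J hJ using hJex
  have hlinf : ℵ₀ < #(lam.ord.ToType) := by
    rw [mk_ord_toType]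
    exact (h.unc 0).trans (hlam 0)
  obtain ⟨A, hA, γ, hγ1, hγ2⟩ := core hlinf hMag t hL.cof (fun i => (κ i).ord.ToType) J hJ
    (by
      intro i S hS'
      apply (mk_iUnion_le_sum_mk).trans_lt
      rw [mk_ord_toType] at hS' ⊢
      exact sum_lt_of_isRegular (hreg i) (by rw [mk_nat]; exact h.unc i) hS')
    ι φ (fun l i x => B l x i)
  obtain ⟨l0, hl0⟩ := hL.cof γ
  have hγl : γ < t (q.len + l0) := hl0.trans_le (hL.mono h (Nat.le_add_left _ _))
  -- the final condition
  let T : ∀ i, Set (Set (κ i).ord.ToType) := fun i => {b | ∃ x, x ⊆ A ∧ BC x ∧ B l0 x i = b}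
  have hT : ∀ i, N l0 ≤ i → #(T i) < κ i := by
    intro i hi
    have h1 : γ ∈ range (ι i) := by
      rw [hL.ran]
      exact hγl.trans_le (hL.mono h (by simp only [N] at hi; omega))
    have h2 := hγ2 l0 i h1
    rw [mk_ord_toType] at h2
    exact h2
  let C : ∀ m, Set (κ m).ord.ToType := fun m =>
    if N l0 ≤ m then tot q m ∩ ⋂ b : T m, b.1 else Set.univ
  have hC : ∀ m, C m ∈ U m := by
    intro m
    simp only [C]
    split_ifs with hm
    · apply Filter.inter_mem (tot_mem q m)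
      apply h.comp m _ _ (hT m hm)
      rintro ⟨b, x, hx, hxb, rfl⟩
      exact hB l0 x m
    · exact Filter.univ_mem
  let r := mkC U (N l0) (res (N l0) g) C hC
  have hrq : r ≤ q := hgq (N l0) (by simp only [N]; omega) C hC (fun m hm => by
    simp only [C, if_pos hm]
    exact inter_subset_left)
  have hrB : ∀ x, x ⊆ A → BC x → r ≤ mkC U (N l0) (res (N l0) g) (B l0 x) (hB l0 x) := by
    intro x hx hxb
    apply mkC_le h
    intro m hm
    simp only [C, if_pos hm]
    exact inter_subset_right.trans (iInter_subset (fun b : T m => b.1) ⟨_, x, hx, hxb, rfl⟩)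
  -- the value `γ` is omitted
  have hom : ∀ x, x ⊆ A → BC x → r ∈ fnot (Val E F x γ) := by
    intro x hx hxb
    rcases hBd l0 x ⟨γ, hγl⟩ with h1 | h1
    · exfalso
      apply hγ1 l0 x hx hxb
      have hex : ∃ v : Iio (t (q.len + l0)),
          mkC U (N l0) (res (N l0) g) (B l0 x) (hB l0 x) ∈ Val E F x v.1 := ⟨⟨γ, hγl⟩, h1⟩
      have h2 : φ l0 x = (hex.choose : lam.ord.ToType) := by
        simp only [φ]
        rw [dif_pos hex]
      rw [h2]
      have h3 := hex.choose_spec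
      exact Val_unique (down_Resp _ _ _ hR _ (hgq (N l0) (by simp only [N]; omega) _ _
        (fun m _ => hBq l0 x m))) h3 h1
    · exact down_fnot _ _ h1 _ (hrB x hx hxb)
  obtain ⟨e⟩ : Nonempty (lam.ord.ToType ≃ A) := Cardinal.eq.1 hA.symm
  refine ⟨r, hrq, mem_fex.2 fun q' hq' => ⟨q', le_rfl, fun a => {_p | a ∈ A}, ?_, ?_⟩⟩
  · refine mem_fex.2 fun q1 _ => ⟨q1, le_rfl, fun x y => {_p | y = (e x : lam.ord.ToType)}, ?_, ?_, ?_⟩
    · refine ⟨fun x => mem_fex.2 fun q2 _ => ⟨q2, le_rfl, e x, meets_of_mem rfl⟩,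
        fun x y y' => mem_fimp.2 fun q2 _ h2 => ⟨q2, le_rfl, ?_⟩⟩
      have h3 := meets_const h2.1
      have h4 := meets_const h2.2
      exact h3.trans h4.symm
    · intro x x' y
      refine mem_fimp.2 fun q2 _ h2 => ⟨q2, le_rfl, ?_⟩
      have h3 := meets_const h2.1
      have h4 := meets_const h2.2
      exact e.injective (Subtype.ext (h3.symm.trans h4))
    · intro x y
      refine mem_fimp.2 fun q2 _ h2 => ⟨q2, le_rfl, ?_⟩
      have h3 : y = (e x : lam.ord.ToType) := meets_const h2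
      apply meets_of_mem
      show y ∈ A
      rw [h3]
      exact (e x).2
  · refine mem_fex.2 fun q1 hq1 => ⟨q1, le_rfl, γ, fun y => mem_fimp.2 fun q2 hq2 h2 => ?_⟩
    obtain ⟨h3, h4, h5⟩ := h2
    obtain ⟨q3, hq3, x, hx, hxe⟩ := exists_ground h hL h4 h5
    have hxA : x ⊆ A := by
      intro a ha
      have h6 : q3 ∈ meets (E y a) := (mem_EqV.1 hxe).2 a ha
      have h7 := fimp_meets (h3 a) hq3 (down_meets _) h6
      exact meets_const h7
    refine ⟨q3, hq3, fun q4 hq4 h6 => ?_⟩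
    apply hom x hxA hx q4 (hq4.trans (hq3.trans (hq2.trans (hq1.trans hq'))))
    exact mem_fex_of_mem y (down_fand (down_EqV _ _) (down_meets _))
      ⟨down_EqV _ _ _ hxe _ hq4, h6⟩

end Pool.Agent.R588.M
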