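import Pool.Agent.R588.MMain

/-!
# Measurable cardinals are inaccessible; the setting of the main theorem
-/

set_option autoImplicit false

namespace Pool.Agent.R588.M

open Cardinal Set

section

variable {δ : Cardinal.{0}} {U : Ultrafilter δ.ord.ToType}

theorem not_mem_of_small (h : IsNormalMeasure δ U) {S : Set δ.ord.ToType} (hS : #S < δ) :
    S ∉ U := by
  intro hSU
  have h1 : (⋂ s : S, ({s.1}ᶜ : Set δ.ord.ToType)) ∈ U :=
    h.2.2.1 S _ hS fun s => Ultrafilter.compl_mem_iff_notMem.2 (h.2.1 s)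
  have h2 := Ultrafilter.nonempty_of_mem (Filter.inter_mem hSU h1)
  obtain ⟨x, hx, hx'⟩ := h2
  exact mem_iInter.1 hx' ⟨x, hx⟩ rfl

theorem isRegular_of_measure (h : IsNormalMeasure δ U) : δ.IsRegular := by
  refine ⟨h.1.le, ?_⟩
  by_contra hcon
  push Not at hcon
  obtain ⟨S, hS, hSc⟩ := Order.exists_cof_eq δ.ord.ToType
  rw [Ordinal.cof_toType] at hSc
  have h1 : (⋂ s : S, (Iic s.1)ᶜ) ∈ U := by
    apply h.2.2.1 S
    · rw [hSc]
      exact hcon
    · intro s
      apply Ultrafilter.compl_mem_iff_notMem.2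
      apply not_mem_of_small h
      have h3 : #(Iic s.1) ≤ #(Iio s.1) + 1 := by
        rw [← Iio_insert]
        exact mk_insert_le
      exact h3.trans_lt (add_lt_of_lt h.1.le (mk_Iio_toType_ord_lt _)
        (one_lt_aleph0.trans h.1))
  obtain ⟨x, hx⟩ := Ultrafilter.nonempty_of_mem h1
  obtain ⟨y, hy, hxy⟩ := hS x
  exact mem_iInter.1 hx ⟨y, hy⟩ hxy

theorem two_power_lt_of_measure (h : IsNormalMeasure δ U) {nu : Cardinal.{0}} (hnu : nu < δ) :
    2 ^ nu < δ := by
  classical
  by_contra hcon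
  push Not at hcon
  have h1 : #δ.ord.ToType ≤ #(Set nu.out) := by
    rw [mk_set, mk_out, mk_ord_toType]
    exact hcon
  obtain ⟨f⟩ := h1
  let b : nu.out → Prop := fun n => {a | n ∈ f a} ∈ U
  have h2 : (⋂ n : nu.out, {a | n ∈ f a ↔ b n}) ∈ U := by
    apply h.2.2.1
    · rw [mk_out]
      exact hnu
    · intro n
      by_cases hb : b n
      · have : {a | n ∈ f a ↔ b n} = {a | n ∈ f a} := by
          ext a
          simp [hb]
        rw [this]
        exact hb
      · have : {a | n ∈ f a ↔ b n} = {a | n ∈ f a}ᶜ := by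
          ext a
          simp [hb]
        rw [this]
        exact Ultrafilter.compl_mem_iff_notMem.2 hb
  obtain ⟨x, hx⟩ := Ultrafilter.nonempty_of_mem h2
  apply h.2.1 x
  apply Filter.mem_of_superset h2
  intro y hy
  apply f.injective
  ext n
  have h3 : n ∈ f y ↔ b n := mem_iInter.1 hy n
  have h4 : n ∈ f x ↔ b n := mem_iInter.1 hx n
  rw [h3, h4]

end

/-- the main theorem in the setting of the problem -/
theorem main (lam : Cardinal.{0}) (κ : ℕ → Cardinal.{0}) (hκ : StrictMono κ)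
    (hlt : ∀ n, κ n < lam) (hcof : ∀ μ < lam, ∃ n, μ < κ n)
    (U : ∀ n, Ultrafilter (κ n).ord.ToType) (hU : ∀ n, IsNormalMeasure (κ n) (U n))
    (hM : IsMagidor lam) (p : Cond κ U) :
    p ∈ IsCardinalN (Cond κ U) lam.ord.ToType ∧ p ∈ MagidorN (Cond κ U) lam.ord.ToType := by
  have hg : Good κ U := ⟨hκ, fun n => (hU n).1, fun n => (hU n).2.2.1⟩
  choose t ι h1 h2 using fun n => exists_seg (hlt n)
  have hL : Lim κ lam t ι := by
    refine ⟨h1, h2, fun a => ?_⟩
    obtain ⟨n, hn⟩ := hcof _ (mk_Iio_toType_ord_lt a)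
    refine ⟨n, ?_⟩
    by_contra hcon
    push Not at hcon
    have h3 := mk_le_mk_of_subset (Iio_subset_Iio hcon)
    rw [mk_seg (h1 n) (h2 n)] at h3
    exact absurd hn (not_lt.2 h3)
  exact ⟨forces_cardinal hg hL p, forces_magidor hg (fun n nu => two_power_lt_of_measure (hU n))
    (fun n => isRegular_of_measure (hU n)) hL hlt hM p⟩

end Pool.Agent.R588.M
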