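import Pool.Agent.R588.MDefs

/-!
# The Prikry property of diagonal Prikry forcing
-/

set_option autoImplicit false

namespace Pool.Agent.R588.M

open Cardinal Set Pool.Agent.Helper669.Forcing

variable {κ : ℕ → Cardinal.{0}} {U : ∀ n, Ultrafilter (κ n).ord.ToType}

/-- the hypotheses on the measures which are used -/
structure Good (κ : ℕ → Cardinal.{0}) (U : ∀ n, Ultrafilter (κ n).ord.ToType) : Prop where
  mono : StrictMono κ
  unc : ∀ n, ℵ₀ < κ n
  comp : ∀ n (J : Type) (A : J → Set (κ n).ord.ToType), #J < κ n → (∀ j, A j ∈ U n) →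
    (⋂ j, A j) ∈ U n

theorem Good.nonempty (h : Good κ U) (n : ℕ) : Nonempty (κ n).ord.ToType := by
  rw [← mk_ne_zero_iff, mk_ord_toType]
  exact (aleph0_pos.trans (h.unc n)).ne'

/-- stems of length `l` -/
abbrev Stem (κ : ℕ → Cardinal.{0}) (l : ℕ) : Type := ∀ i, i < l → (κ i).ord.ToType

/-- the restriction of a sequence to a stem -/
def res (l : ℕ) (g : ∀ i, (κ i).ord.ToType) : Stem κ l := fun i _ => g i

theorem res_eq {l : ℕ} {g g' : ∀ i, (κ i).ord.ToType} :
    res l g = res l g' ↔ ∀ i < l, g i = g' i := by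
  constructor
  · intro h i hi
    exact congrFun (congrFun h i) hi
  · intro h
    funext i hi
    exact h i hi

/-- build a condition -/
def mkC (U : ∀ n, Ultrafilter (κ n).ord.ToType) (l : ℕ) (s : Stem κ l)
    (B : ∀ m, Set (κ m).ord.ToType) (hB : ∀ m, B m ∈ U m) : Cond κ U :=
  ⟨l, s, fun m _ => B m, fun m _ => hB m⟩

/-- the sets of a condition, extended by the whole space -/
noncomputable def tot (p : Cond κ U) (m : ℕ) : Set (κ m).ord.ToType :=
  open Classical in if h : p.len ≤ m then p.A m h else Set.univ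

theorem tot_mem (p : Cond κ U) (m : ℕ) : tot p m ∈ U m := by
  unfold tot
  split_ifs with h
  · exact p.mem m h
  · exact Filter.univ_mem

theorem tot_eq (p : Cond κ U) {m : ℕ} (h : p.len ≤ m) : tot p m = p.A m h := by
  unfold tot
  rw [dif_pos h]

theorem eq_mkC (p : Cond κ U) : p = mkC U p.len p.stem (tot p) (tot_mem p) := by
  obtain ⟨l, s, A, hA⟩ := p
  simp only [mkC, Cond.mk.injEq, heq_eq_eq, true_and]
  funext m h
  exact (tot_eq (U := U) ⟨l, s, A, hA⟩ h).symm

theorem mkC_le (h : Good κ U) {l : ℕ} {s : Stem κ l} {B B' : ∀ m, Set (κ m).ord.ToType}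
    {hB : ∀ m, B m ∈ U m} {hB' : ∀ m, B' m ∈ U m} (hs : ∀ m, l ≤ m → B m ⊆ B' m) :
    mkC U l s B hB ≤ mkC U l s B' hB' :=
  ⟨le_rfl, fun _ _ => rfl, fun i h1 h2 => absurd h2 (not_lt.2 h1), fun m hm => hs m hm⟩

/-- characterization of the order with sequences -/
theorem le_mkC_iff {l l' : ℕ} {g g' : ∀ i, (κ i).ord.ToType} {B B' : ∀ m, Set (κ m).ord.ToType}
    {hB : ∀ m, B m ∈ U m} {hB' : ∀ m, B' m ∈ U m} :
    mkC U l' (res l' g') B' hB' ≤ mkC U l (res l g) B hB ↔
      l ≤ l' ∧ (∀ i < l, g' i = g i) ∧ (∀ i, l ≤ i → i < l' → g' i ∈ B i) ∧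
        ∀ m, l' ≤ m → B' m ⊆ B m := by
  constructor
  · rintro ⟨h1, h2, h3, h4⟩
    exact ⟨h1, fun i hi => h2 i hi, fun i hi hi' => h3 i hi hi', fun m hm => h4 m hm⟩
  · rintro ⟨h1, h2, h3, h4⟩
    exact ⟨h1, fun i hi => h2 i hi, fun i hi hi' => h3 i hi hi', fun m hm => h4 m hm⟩

/-- extend a stem to a sequence -/
theorem exists_seq (h : Good κ U) {l : ℕ} (s : Stem κ l) : ∃ g : ∀ i, (κ i).ord.ToType,
    s = res l g := by
  classical
  have := h.nonempty
  refine ⟨fun i => if hi : i < l then s i hi else Classical.arbitrary _, ?_⟩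
  funext i hi
  simp only [res, dif_pos hi]

theorem exists_repr (h : Good κ U) (p : Cond κ U) : ∃ g : ∀ i, (κ i).ord.ToType,
    p = mkC U p.len (res p.len g) (tot p) (tot_mem p) := by
  obtain ⟨g, hg⟩ := exists_seq h p.stem
  refine ⟨g, ?_⟩
  rw [← hg]
  exact eq_mkC p

/-- lengthen a condition -/
theorem exists_longer (h : Good κ U) (p : Cond κ U) (n : ℕ) : ∃ q ≤ p, n ≤ q.len := by
  classical
  obtain ⟨g, hg⟩ := exists_repr h p
  have hne : ∀ m, (tot p m).Nonempty := fun m => Ultrafilter.nonempty_of_mem (tot_mem p m)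
  let g' : ∀ i, (κ i).ord.ToType := fun i => if i < p.len then g i else (hne i).choose
  refine ⟨mkC U (max p.len n) (res _ g') (tot p) (tot_mem p), ?_, le_max_right _ _⟩
  conv_rhs => rw [hg]
  rw [le_mkC_iff]
  refine ⟨le_max_left _ _, fun i hi => by simp [g', hi], fun i hi _ => ?_, fun m _ => Subset.rfl⟩
  simp only [g', if_neg (not_lt.2 hi)]
  exact (hne i).choose_spec

theorem mk_stem_lt (h : Good κ U) {l m : ℕ} (hlm : l ≤ m) : #(Stem κ l) < κ m := by
  induction l with
  | zero =>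
    have : Subsingleton (Stem κ 0) := ⟨fun a b => by
      funext i hi
      exact absurd hi (Nat.not_lt_zero i)⟩
    exact (le_one_iff_subsingleton.2 this).trans_lt (one_lt_aleph0.trans (h.unc m))
  | succ l ih =>
    have h1 : #(Stem κ (l + 1)) ≤ #(Stem κ l × (κ l).ord.ToType) := by
      let f : Stem κ (l + 1) → Stem κ l × (κ l).ord.ToType := fun s =>
        (fun i hi => s i (hi.trans (Nat.lt_succ_self l)), s l (Nat.lt_succ_self l))
      have hf : Function.Injective f := by
        intro s t hst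
        funext i hi
        rcases Nat.lt_succ_iff_lt_or_eq.1 hi with hi' | rfl
        · exact congrFun (congrFun (congrArg Prod.fst hst) i) hi'
        · exact congrArg Prod.snd hst
      exact mk_le_of_injective hf
    refine h1.trans_lt ?_
    rw [mk_prod, Cardinal.lift_id, Cardinal.lift_id, mk_ord_toType]
    exact mul_lt_of_lt (h.unc m).le (ih (Nat.le_of_succ_le hlm)) (h.mono (Nat.lt_of_succ_le hlm))

theorem fnot_fnot {P : Type} [Preorder P] {D : Set P} {p : P} :
    p ∈ fnot (fnot D) ↔ ∀ q ≤ p, ∃ r ≤ q, r ∈ D := by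
  simp only [fnot, Set.mem_ofPred_eq, not_forall, not_not, exists_prop]

/-- **The Prikry property.** -/
theorem prikry (h : Good κ U) {D : Set (Cond κ U)} (hD : Down D) (l0 : ℕ) (s0 : Stem κ l0) :
    ∃ B, ∃ hB : ∀ m, B m ∈ U m, mkC U l0 s0 B hB ∈ fnot (fnot D) ∨ mkC U l0 s0 B hB ∈ fnot D := by
  classical
  by_contra hcon
  have hne := h.nonempty
  -- the two colours
  let G : ∀ l, Stem κ l → Prop := fun l s => ∃ B, ∃ hB : ∀ m, B m ∈ U m,
    mkC U l s B hB ∈ fnot (fnot D)
  let N : ∀ l, Stem κ l → Prop := fun l s => ∃ B, ∃ hB : ∀ m, B m ∈ U m,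
    mkC U l s B hB ∈ fnot D
  have hG0 : ¬ G l0 s0 := fun ⟨B, hB, h1⟩ => hcon ⟨B, hB, Or.inl h1⟩
  have hN0 : ¬ N l0 s0 := fun ⟨B, hB, h1⟩ => hcon ⟨B, hB, Or.inr h1⟩
  -- witnesses
  have hw : ∀ l (s : Stem κ l), ∃ B : ∀ m, Set (κ m).ord.ToType, ∃ hB : ∀ m, B m ∈ U m,
      (G l s → mkC U l s B hB ∈ fnot (fnot D)) ∧ (N l s → mkC U l s B hB ∈ fnot D) := by
    intro l s
    by_cases h1 : G l s
    · obtain ⟨B, hB, h2⟩ := h1
      by_cases h3 : N l s
      · obtain ⟨B', hB', h4⟩ := h3
        exfalso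
        obtain ⟨r, hr, hrD⟩ := fnot_fnot.1 h2 (mkC U l s (fun m => B m ∩ B' m)
          (fun m => Filter.inter_mem (hB m) (hB' m))) (mkC_le h fun m _ => inter_subset_left)
        exact h4 r (hr.trans (mkC_le h fun m _ => inter_subset_right)) hrD
      · exact ⟨B, hB, fun _ => h2, fun h4 => absurd h4 h3⟩
    · by_cases h3 : N l s
      · obtain ⟨B', hB', h4⟩ := h3
        exact ⟨B', hB', fun h5 => absurd h5 h1, fun _ => h4⟩
      · exact ⟨fun _ => Set.univ, fun _ => Filter.univ_mem, fun h5 => absurd h5 h1,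
          fun h5 => absurd h5 h3⟩
  choose W hW hWG hWN using hw
  have hseq : ∀ l (s : Stem κ l), ∃ g : ∀ i, (κ i).ord.ToType, s = res l g :=
    fun l s => exists_seq h s
  choose sq hsq using hseq
  -- adding an element to a stem
  let ap : ∀ l, Stem κ l → (κ l).ord.ToType → Stem κ (l + 1) := fun l s a =>
    res (l + 1) (Function.update (sq l s) l a)
  have hap : ∀ l (g : ∀ i, (κ i).ord.ToType), ap l (res l g) (g l) = res (l + 1) g := by
    intro l g
    apply res_eq.2
    intro i hi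
    rcases Nat.lt_succ_iff_lt_or_eq.1 hi with hi' | rfl
    · rw [Function.update_of_ne hi'.ne]
      exact (congrFun (congrFun (hsq l (res l g)) i) hi').symm
    · rw [Function.update_self]
  -- homogeneous sets
  let H : ∀ l, Stem κ l → (∀ l, Stem κ l → Prop) → Set (κ l).ord.ToType := fun l s Q =>
    if {a | Q (l + 1) (ap l s a)} ∈ U l then {a | Q (l + 1) (ap l s a)}
    else {a | Q (l + 1) (ap l s a)}ᶜ
  have hH : ∀ l s Q, H l s Q ∈ U l := by
    intro l s Q
    simp only [H]
    split_ifs with h1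
    · exact h1
    · exact Ultrafilter.compl_mem_iff_notMem.2 h1
  have hH' : ∀ l s Q a, a ∈ H l s Q → Q (l + 1) (ap l s a) → {a | Q (l + 1) (ap l s a)} ∈ U l := by
    intro l s Q a ha hQ
    simp only [H] at ha
    split_ifs at ha with h1
    · exact h1
    · exact absurd hQ ha
  -- the diagonal intersection
  let B : ∀ m, Set (κ m).ord.ToType := fun m =>
    (⋂ l ∈ Set.Iic m, ⋂ s : Stem κ l, W l s m) ∩ ⋂ s : Stem κ m, (H m s G ∩ H m s N)
  have hB : ∀ m, B m ∈ U m := by
    intro m
    apply Filter.inter_mem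
    · rw [Ultrafilter.mem_coe, ← Ultrafilter.mem_coe, Filter.biInter_mem (Set.finite_Iic m)]
      intro l hl
      exact h.comp m _ _ (mk_stem_lt h hl) fun s => hW l s m
    · exact h.comp m _ _ (mk_stem_lt h le_rfl) fun s => Filter.inter_mem (hH m s G) (hH m s N)
  have hBW : ∀ l m, l ≤ m → ∀ s : Stem κ l, B m ⊆ W l s m := by
    intro l m hlm s x hx
    exact mem_iInter.1 (mem_iInter₂.1 hx.1 l hlm) s
  -- a colour spreads downwards
  have spread : ∀ (Q : ∀ l, Stem κ l → Prop), (Q = G ∨ Q = N) → ∀ l (g : ∀ i, (κ i).ord.ToType),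
      g l ∈ B l → Q (l + 1) (res (l + 1) g) → Q l (res l g) := by
    intro Q hQ l g hgl hQg
    have h1 : {a | Q (l + 1) (ap l (res l g) a)} ∈ U l := by
      have h2 := mem_iInter.1 hgl.2 (res l g)
      rw [← hap l g] at hQg
      rcases hQ with rfl | rfl
      · exact hH' l _ _ _ h2.1 hQg
      · exact hH' l _ _ _ h2.2 hQg
    let B' : ∀ m, Set (κ m).ord.ToType := Function.update B l (B l ∩ {a | Q (l + 1) (ap l (res l g) a)})
    have hB' : ∀ m, B' m ∈ U m := by
      intro m
      by_cases hm : m = l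
      · subst hm
        simp only [B', Function.update_self]
        exact Filter.inter_mem (hB m) h1
      · simp only [B', Function.update_of_ne hm]
        exact hB m
    have hB'B : ∀ m, B' m ⊆ B m := by
      intro m
      by_cases hm : m = l
      · subst hm
        simp only [B', Function.update_self]
        exact inter_subset_left
      · simp only [B', Function.update_of_ne hm]
        exact Subset.rfl
    -- every extension of length `> l` is below a witness
    have key : ∀ q ≤ mkC U l (res l g) B' hB', ∃ r ≤ q, ∃ a, Q (l + 1) (ap l (res l g) a) ∧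
        r ≤ mkC U (l + 1) (ap l (res l g) a) (W (l + 1) (ap l (res l g) a))
          (hW (l + 1) (ap l (res l g) a)) := by
      intro q hq
      obtain ⟨r, hr, hrl⟩ := exists_longer h q (l + 1)
      obtain ⟨g', hg'⟩ := exists_repr h r
      have h2 := hr.trans hq
      rw [hg', le_mkC_iff] at h2
      obtain ⟨h3, h4, h5, h6⟩ := h2
      have h7 : g' l ∈ B' l := h5 l le_rfl (Nat.lt_of_succ_le hrl)
      have h8 : res l g = res l g' := res_eq.2 fun i hi => (h4 i hi).symm
      have h9 : Q (l + 1) (ap l (res l g) (g' l)) := by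
        simp only [B', Function.update_self] at h7
        exact h7.2
      refine ⟨r, hr, g' l, h9, ?_⟩
      conv_lhs => rw [hg']
      have h10 : ap l (res l g) (g' l) = res (l + 1) g' := by rw [h8, hap]
      have h11 : mkC U (l + 1) (ap l (res l g) (g' l)) (W (l + 1) (ap l (res l g) (g' l)))
          (hW (l + 1) (ap l (res l g) (g' l))) = mkC U (l + 1) (res (l + 1) g')
          (W (l + 1) (res (l + 1) g')) (hW (l + 1) (res (l + 1) g')) := by rw [h10]
      rw [h11, le_mkC_iff]
      refine ⟨hrl, fun _ _ => rfl, fun i hi hi' => ?_, fun m hm => ?_⟩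
      · exact hBW (l + 1) i hi _ (hB'B i (h5 i (Nat.le_of_succ_le hi) hi'))
      · exact (h6 m hm).trans ((hB'B m).trans (hBW (l + 1) m (hrl.trans hm) _))
    rcases hQ with rfl | rfl
    · refine ⟨B', hB', fnot_fnot.2 fun q hq => ?_⟩
      obtain ⟨r, hr, a, ha, hra⟩ := key q hq
      obtain ⟨r', hr', hD'⟩ := fnot_fnot.1 (hWG _ _ ha) r hra
      exact ⟨r', hr'.trans hr, hD'⟩
    · refine ⟨B', hB', fun q hq hqD => ?_⟩
      obtain ⟨r, hr, a, ha, hra⟩ := key q hq
      exact hWN _ _ ha r hra (hD _ hqD _ hr)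
  -- no colour appears above `s0`
  obtain ⟨g0, hg0⟩ := exists_seq h s0
  subst hg0
  have none : ∀ k (g : ∀ i, (κ i).ord.ToType), (∀ i < l0, g i = g0 i) →
      (∀ i, l0 ≤ i → i < l0 + k → g i ∈ B i) → ¬ G (l0 + k) (res (l0 + k) g) := by
    intro k
    induction k with
    | zero =>
      intro g hg _ h1
      have : res l0 g = res l0 g0 := res_eq.2 hg
      exact hG0 (this ▸ h1)
    | succ k ih =>
      intro g hg hgB h1
      have h2 := spread G (Or.inl rfl) (l0 + k) g (hgB _ (Nat.le_add_right _ _) (by omega)) h1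
      exact ih g hg (fun i hi hi' => hgB i hi (by omega)) h2
  have h1 : mkC U l0 (res l0 g0) B hB ∉ fnot D := fun h1 => hN0 ⟨B, hB, h1⟩
  simp only [fnot, Set.mem_ofPred_eq, not_forall, not_not] at h1
  obtain ⟨r, hr, hrD⟩ := h1
  obtain ⟨g, hg⟩ := exists_repr h r
  have h2 := hr
  rw [hg, le_mkC_iff] at h2
  obtain ⟨h3, h4, h5, h6⟩ := h2
  obtain ⟨k, hk⟩ := Nat.exists_eq_add_of_le h3
  have h7 : G r.len (res r.len g) := ⟨tot r, tot_mem r, by
    rw [← hg]
    exact fnot_fnot.2 fun q hq => ⟨q, le_rfl, hD _ hrD _ hq⟩⟩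
  rw [hk] at h7
  exact none k g h4 (fun i hi hi' => h5 i hi (by omega)) h7

/-- deciding few sentences by a direct extension -/
theorem decide_all (h : Good κ U) {J : Type} {D : J → Set (Cond κ U)} (hD : ∀ j, Down (D j))
    (l : ℕ) (hJ : #J < κ l) (s : Stem κ l) (B0 : ∀ m, Set (κ m).ord.ToType)
    (hB0 : ∀ m, B0 m ∈ U m) :
    ∃ B, ∃ hB : ∀ m, B m ∈ U m, (∀ m, B m ⊆ B0 m) ∧
      ∀ j, mkC U l s B hB ∈ fnot (fnot (D j)) ∨ mkC U l s B hB ∈ fnot (D j) := by
  classical
  choose B hB h1 using fun j => prikry h (hD j) l s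
  let B' : ∀ m, Set (κ m).ord.ToType := fun m => if l ≤ m then B0 m ∩ ⋂ j, B j m else B0 m
  have hB' : ∀ m, B' m ∈ U m := by
    intro m
    simp only [B']
    split_ifs with hm
    · exact Filter.inter_mem (hB0 m) (h.comp m _ _ (hJ.trans_le (h.mono.monotone hm)) fun j => hB j m)
    · exact hB0 m
  refine ⟨B', hB', fun m => ?_, fun j => ?_⟩
  · simp only [B']
    split_ifs
    · exact inter_subset_left
    · exact Subset.rfl
  · have h2 : mkC U l s B' hB' ≤ mkC U l s (B j) (hB j) := mkC_le h fun m hm => by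
      simp only [B', if_pos hm]
      exact inter_subset_right.trans (iInter_subset _ j)
    rcases h1 j with h3 | h3
    · exact Or.inl (down_fnot _ _ h3 _ h2)
    · exact Or.inr (down_fnot _ _ h3 _ h2)

end Pool.Agent.R588.M
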